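import Pool.Agent.Q32.Shadow

/-!
# MP_ea4c65_al: the bound `sd(x) ≤ ⌈|x|/2⌉` fails

For every `n ≥ 2` there are an infinite finitely generated (even abelian) group, a finite
generating set and a dead-end element `x` with `|x| = n` and `sd(x) = n`, the largest value
that the trivial bound `sd(x) ≤ |x|` allows.  The group is `ℤ × ℤ/2n` with the generators
`(1,0), (1,1), (0,1)` and `x = (0,n)`.
-/

namespace Pool.Agent.Results.MP_ea4c65_al.ShadowDepthDisproof

variable {G : Type*} [Group G]

/-- The Cayley graph of `(G,S)`: two distinct elements `g`, `h` are adjacent when `h = g * s` or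
`g = h * s` for some `s ∈ S`. -/
def cayleyGraph (S : Set G) : SimpleGraph G where
  Adj g h := g ≠ h ∧ ∃ s ∈ S, h = g * s ∨ g = h * s
  symm := ⟨fun _ _ h => ⟨h.1.symm, h.2.imp fun _ h => ⟨h.1, h.2.symm⟩⟩⟩
  loopless := ⟨fun _ h => h.1 rfl⟩

/-- The word length `|x| = d(e,x)`. -/
noncomputable def len (S : Set G) (x : G) : ℕ := (cayleyGraph S).dist 1 x

/-- A strictly increasing path to infinity in the Cayley graph, starting at `x`. -/
def IsIncreasingPath (S : Set G) (x : G) (π : ℕ → G) : Prop :=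
  π 0 = x ∧ ∀ i, (cayleyGraph S).Adj (π i) (π (i + 1)) ∧ len S (π i) < len S (π (i + 1))

/-- The set `S(n)^{s∞}` of elements of length `n` from which some strictly increasing path to
infinity starts. -/
def escapeSphere (S : Set G) (n : ℕ) : Set G :=
  {x | len S x = n ∧ ∃ π : ℕ → G, IsIncreasingPath S x π}

/-- `y` lies on some geodesic from `e` to `x`, that is, on a walk of length `|x|` in the Cayley
graph from `e` to `x`. -/
def OnGeodesic (S : Set G) (x y : G) : Prop :=
  ∃ p : (cayleyGraph S).Walk 1 x, p.length = len S x ∧ y ∈ p.support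

/-- The depth of the shadow of `x`. -/
noncomputable def shadowDepth (S : Set G) (x : G) : ℕ :=
  sInf {k | k ≤ len S x ∧ ∃ y ∈ escapeSphere S (len S x - k), OnGeodesic S x y}

/-- `x` is a dead end: no neighbour of `x` in the Cayley graph is farther from `e`. -/
def IsDeadEnd (S : Set G) (x : G) : Prop :=
  ∀ y, (cayleyGraph S).Adj x y → len S y ≤ len S x

theorem cayleyGraph_eq (S : Set G) : cayleyGraph S = Q32.cay S := rfl

theorem len_eq (S : Set G) (x : G) : len S x = Q32.wlen S x := rfl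

open Q32.Shadow in
theorem deadEnd (n : ℕ) (hn : 2 ≤ n) : IsDeadEnd (gens n) (el n 0 n) := by
  have hS := closure_gens n
  have h1n : (1 : ℕ) ≤ n := by omega
  -- the length of `(1,n)` and `(1,n+1)` is at most `n`
  have hA : Q32.wlen (gens n) (el n 1 n) ≤ n := by
    have := wlen_abc n 0 1 (n - 1)
    have e : el n 1 n = el n ((0 : ℕ) + (1 : ℕ)) ((1 : ℕ) + (n - 1 : ℕ)) := by
      rw [el_eq_iff]; exact ⟨by simp, ⟨0, by push_cast [Nat.cast_sub h1n]; ring⟩⟩
    rw [e]; omega
  have hB : Q32.wlen (gens n) (el n 1 (n + 1)) ≤ n := by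
    have h0 := wlen_abc n 1 0 0
    have h1 := wlen_abc n 0 0 (n - 1)
    rw [← wlen_neg_el] at h1
    have h2 := Q32.wlen_mul_le hS (el n ((1 : ℕ) + (0 : ℕ)) ((0 : ℕ) + (0 : ℕ)))
      (el n (-((0 : ℕ) + (0 : ℕ))) (-((0 : ℕ) + (n - 1 : ℕ))))
    rw [el_mul] at h2
    have e : el n 1 (n + 1) = el n ((1 : ℕ) + (0 : ℕ) + -((0 : ℕ) + (0 : ℕ)))
        ((0 : ℕ) + (0 : ℕ) + -((0 : ℕ) + (n - 1 : ℕ))) := by
      rw [el_eq_iff]
      refine ⟨by simp, ⟨-1, ?_⟩⟩
      push_cast [Nat.cast_sub h1n]; ring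
    rw [e]
    omega
  have hC : Q32.wlen (gens n) (el n 0 (n - 1)) ≤ n := by
    have := wlen_abc n 0 0 (n - 1)
    have e : el n 0 (n - 1) = el n ((0 : ℕ) + (0 : ℕ)) ((0 : ℕ) + (n - 1 : ℕ)) := by
      rw [el_eq_iff]; exact ⟨by simp, ⟨0, by push_cast [Nat.cast_sub h1n]; ring⟩⟩
    rw [e]; omega
  have hA' : Q32.wlen (gens n) (el n (-1) n) ≤ n := by
    have e : el n (-1) n = el n (-1) (-n) := by
      rw [el_eq_iff]; exact ⟨rfl, ⟨-1, by push_cast; ring⟩⟩
    rw [e, wlen_neg_el]; exact hA
  have hB' : Q32.wlen (gens n) (el n (-1) (n - 1)) ≤ n := by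
    have e : el n (-1) (n - 1) = el n (-1) (-(n + 1)) := by
      rw [el_eq_iff]; exact ⟨rfl, ⟨-1, by push_cast; ring⟩⟩
    rw [e, wlen_neg_el]; exact hB
  have hC' : Q32.wlen (gens n) (el n 0 (n + 1)) ≤ n := by
    have e : el n 0 (n + 1) = el n (-0) (-(n - 1)) := by
      rw [el_eq_iff]; exact ⟨rfl, ⟨-1, by push_cast; ring⟩⟩
    rw [e, wlen_neg_el]; exact hC
  intro y hy
  rw [len_eq, len_eq, wlen_top n h1n]
  obtain ⟨_, s, hs, hv⟩ := hy
  rw [gens_eq] at hs
  simp only [Set.mem_insert_iff, Set.mem_singleton_iff] at hs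
  rcases hv with hv | hv
  · rcases hs with rfl | rfl | rfl <;> rw [el_mul] at hv <;> rw [hv]
    · simpa using hA
    · simpa using hB
    · simpa using hC'
  · have hv' : y = el n 0 n * s⁻¹ := by rw [hv]; simp
    rcases hs with rfl | rfl | rfl <;> rw [el_inv, el_mul] at hv' <;> rw [hv']
    · simpa using hA'
    · simpa [sub_eq_add_neg] using hB'
    · simpa [sub_eq_add_neg] using hC

open Q32.Shadow in
theorem not_escape (n : ℕ) (hn : 2 ≤ n) (z : ℤ) (m : ℕ) (hm : 0 < m) :
    el n 0 z ∉ escapeSphere (gens n) m := by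
  rintro ⟨hlen, π, h0, hπ⟩
  have h1n : 1 ≤ n := by omega
  -- lengths grow
  have hgrow : ∀ i, m + i ≤ len (gens n) (π i) := by
    intro i
    induction i with
    | zero => rw [h0, hlen]; omega
    | succ i ih => have := (hπ i).2; omega
  -- the first coordinate grows at most linearly
  have hk : ∀ i : ℕ, ∃ k w : ℤ, π i = el n k w ∧ |k| ≤ i := by
    intro i
    induction i with
    | zero => exact ⟨0, z, h0, by simp⟩
    | succ i ih =>
      obtain ⟨k, w, hkw, hk⟩ := ih
      have hadj : (Q32.cay (gens n)).Adj (π i) (π (i + 1)) := (hπ i).1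
      obtain ⟨k', w', h', h1, _, _⟩ := lift_walk n hadj.toWalk
      refine ⟨k + k', w + w', ?_, ?_⟩
      · rw [h', hkw, el_mul]
      · have := abs_add_le k k'
        simp only [SimpleGraph.Adj.length_toWalk] at h1
        push_cast at *
        omega
  obtain ⟨k, w, hkw, hk⟩ := hk (3 * n)
  have hg := hgrow (3 * n)
  rw [hkw, len_eq] at hg
  rcases lt_or_ge |k| (2 * (n : ℤ) - 1) with h | h
  · have := wlen_le n h1n k w
    push_cast at *
    omega
  · have := wlen_far n h1n k w h
    push_cast at *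
    omega

/-- There is always a strictly increasing path to infinity from `e` in this example. -/
theorem escape_one (n : ℕ) :
    (1 : Q32.Shadow.Grp n) ∈ escapeSphere (Q32.Shadow.gens n) 0 := by
  have hlen : ∀ i : ℕ, Q32.wlen (Q32.Shadow.gens n) (Q32.Shadow.el n i 0) = i := by
    intro i
    refine le_antisymm ?_ ?_
    · have := Q32.Shadow.wlen_abc n i 0 0
      simpa using this
    · obtain ⟨p, hp⟩ := (Q32.cay_connected
        (Q32.Shadow.closure_gens n)).exists_walk_length_eq_dist 1 (Q32.Shadow.el n i 0)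
      obtain ⟨k, z, h, h1, _, _⟩ := Q32.Shadow.lift_walk n p
      rw [one_mul, Q32.Shadow.el_eq_iff] at h
      rw [Q32.wlen, ← hp]
      have h2 := h.1
      rw [← h2] at h1
      have h3 : |(i : ℤ)| = i := abs_of_nonneg (by omega)
      omega
  refine ⟨Q32.wlen_one _, fun i => Q32.Shadow.el n i 0, ?_, ?_⟩
  · simpa using Q32.Shadow.el_one n
  · intro i
    refine ⟨?_, ?_⟩
    · refine ⟨?_, Q32.Shadow.el n 1 0, by simp [Q32.Shadow.gens_eq], Or.inl ?_⟩
      · intro h
        rw [Q32.Shadow.el_eq_iff] at h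
        have := h.1
        push_cast at this
        omega
      · simp only [Q32.Shadow.el_mul]; push_cast; simp
    · rw [len_eq, len_eq, hlen i, hlen (i + 1)]; omega

/-- **Disproof of `sd(x) ≤ ⌈|x|/2⌉`.**  For every `n ≥ 2` there are an infinite finitely generated
abelian group `G`, a finite generating set `S` and a dead-end element `x` with `|x| = n` and
`sd(x) = n > ⌈|x|/2⌉`. -/
theorem result (n : ℕ) (hn : 2 ≤ n) :
    ∃ (G : Type) (_ : CommGroup G) (S : Finset G) (x : G),
      Infinite G ∧ Subgroup.closure (S : Set G) = ⊤ ∧ IsDeadEnd (S : Set G) x ∧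
      len (S : Set G) x = n ∧ shadowDepth (S : Set G) x = n ∧
      ⌈(len (S : Set G) x : ℚ) / 2⌉₊ < shadowDepth (S : Set G) x := by
  classical
  have h1n : 1 ≤ n := by omega
  let S : Finset (Q32.Shadow.Grp n) :=
    {Q32.Shadow.el n 1 0, Q32.Shadow.el n 1 1, Q32.Shadow.el n 0 1}
  have hS : (S : Set (Q32.Shadow.Grp n)) = Q32.Shadow.gens n := by
    rw [Q32.Shadow.gens_eq]; simp [S]
  have hlen : len (Q32.Shadow.gens n) (Q32.Shadow.el n 0 n) = n := Q32.Shadow.wlen_top n h1n
  have hsd : shadowDepth (Q32.Shadow.gens n) (Q32.Shadow.el n 0 n) = n := by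
    refine le_antisymm ?_ ?_
    · refine Nat.sInf_le ⟨hlen.ge, 1, ?_, ?_⟩
      · rw [hlen, Nat.sub_self]; exact escape_one n
      · obtain ⟨p, hp⟩ := (Q32.cay_connected
          (Q32.Shadow.closure_gens n)).exists_walk_length_eq_dist 1 (Q32.Shadow.el n 0 n)
        exact ⟨p, hp, p.start_mem_support⟩
    · refine le_csInf ⟨n, hlen.ge, 1, ?_, ?_⟩ ?_
      · rw [hlen, Nat.sub_self]; exact escape_one n
      · obtain ⟨p, hp⟩ := (Q32.cay_connected
          (Q32.Shadow.closure_gens n)).exists_walk_length_eq_dist 1 (Q32.Shadow.el n 0 n)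
        exact ⟨p, hp, p.start_mem_support⟩
      · rintro k ⟨hk, y, hy, p, hp, hyp⟩
        by_contra hlt
        rw [not_le] at hlt
        rw [hlen] at hk hy hp
        -- `y` is on a geodesic, so it is `(0,z)`
        have hsplit : Q32.wlen (Q32.Shadow.gens n) y +
            (Q32.cay (Q32.Shadow.gens n)).dist y (Q32.Shadow.el n 0 n) = n := by
          refine le_antisymm ?_ ?_
          · have e := congrArg SimpleGraph.Walk.length (p.take_spec hyp)
            rw [SimpleGraph.Walk.length_append, hp] at e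
            have h1 : (Q32.cay (Q32.Shadow.gens n)).dist 1 y ≤ (p.takeUntil y hyp).length :=
              SimpleGraph.dist_le (p.takeUntil y hyp)
            have h2 : (Q32.cay (Q32.Shadow.gens n)).dist y (Q32.Shadow.el n 0 n) ≤
              (p.dropUntil y hyp).length := SimpleGraph.dist_le (p.dropUntil y hyp)
            rw [Q32.wlen]
            omega
          · have := (Q32.cay_connected (Q32.Shadow.closure_gens n)).dist_triangle
              (u := 1) (v := y) (w := Q32.Shadow.el n 0 n)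
            rw [len_eq, Q32.wlen] at hlen
            rw [Q32.wlen]
            omega
        obtain ⟨z, rfl⟩ := Q32.Shadow.on_geod n h1n y hsplit
        exact not_escape n hn z (n - k) (by omega) hy
  have hinf : Infinite (Q32.Shadow.Grp n) := by
    refine Infinite.of_injective (fun k : ℤ => Q32.Shadow.el n k 0) ?_
    intro a b h
    exact ((Q32.Shadow.el_eq_iff n a 0 b 0).1 h).1
  refine ⟨Q32.Shadow.Grp n, inferInstance, S, Q32.Shadow.el n 0 n, hinf, ?_⟩
  rw [hS]
  refine ⟨Q32.Shadow.closure_gens n, deadEnd n hn, hlen, hsd, ?_⟩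
  rw [hsd, hlen]
  have h2 : (2 : ℚ) ≤ n := by exact_mod_cast hn
  have h3 : ⌈(n : ℚ) / 2⌉₊ ≤ n - 1 := by
    rw [Nat.ceil_le, show ((n - 1 : ℕ) : ℚ) = (n : ℚ) - 1 by push_cast [Nat.cast_sub h1n]; ring]
    linarith
  omega

end Pool.Agent.Results.MP_ea4c65_al.ShadowDepthDisproof
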